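import Mathlib

/-!
# A benzenoid system with a hexagon of ring bond order 3

We work in the regular hexagonal lattice.  Its vertices are the triples `(a, b, s)` with `a b : ℤ`
and `s : Bool`.  In the plane, with `e₁ = (1, 0)` and `e₂ = (1/2, √3/2)`, the vertex
`(a, b, false)` is the point `a e₁ + b e₂ + (e₁ + e₂)/3` and `(a, b, true)` is the point
`a e₁ + b e₂ + 2 (e₁ + e₂)/3`; the hexagonal face `(a, b)` is the one with centre `a e₁ + b e₂`.

We show that there is a cycle `C` of the lattice such that the benzenoid system consisting of `C`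
and everything inside it has 25 hexagons, has a perfect matching, and has a hexagon of which every
perfect matching contains three edges, so that its ring bond order is 3.
-/

namespace Pool.Agent.Results.MP_64a46a_co.RingBondOrderThree

/-- Vertices of the regular hexagonal lattice. -/
abbrev V := ℤ × ℤ × Bool

/-- The three neighbours of a vertex of the hexagonal lattice. -/
def nbrs (x : V) : List V :=
  if x.2.2 then [(x.1, x.2.1, false), (x.1 + 1, x.2.1, false), (x.1, x.2.1 + 1, false)]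
  else [(x.1, x.2.1, true), (x.1 - 1, x.2.1, true), (x.1, x.2.1 - 1, true)]

/-- The regular hexagonal lattice as a graph: `(a, b, false)` is joined to
`(a, b, true)`, `(a - 1, b, true)` and `(a, b - 1, true)`. -/
def hexLattice : SimpleGraph V where
  Adj x y := y ∈ nbrs x
  symm := ⟨by
    rintro ⟨a, b, s⟩ ⟨c, d, t⟩ h
    cases s <;> cases t <;> simp [nbrs] at h ⊢ <;> omega⟩
  loopless := ⟨by
    rintro ⟨a, b, s⟩ h
    cases s <;> simp [nbrs] at h⟩

/-- The six corners of the hexagonal face `f = (a, b)`, in cyclic order. -/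
def corner (f : ℤ × ℤ) (i : Fin 6) : V :=
  match i with
  | 0 => (f.1, f.2, false)
  | 1 => (f.1 - 1, f.2, true)
  | 2 => (f.1 - 1, f.2, false)
  | 3 => (f.1 - 1, f.2 - 1, true)
  | 4 => (f.1, f.2 - 1, false)
  | 5 => (f.1, f.2 - 1, true)

/-- The set of corners of a hexagonal face. -/
def face (f : ℤ × ℤ) : Finset V := Finset.univ.image (corner f)

/-- The set of the six edges of a hexagonal face. -/
def hexEdges (f : ℤ × ℤ) : Finset (Sym2 V) :=
  Finset.univ.image fun i : Fin 6 => s(corner f i, corner f (i + 1))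

/-- One can pass from the face `f` to the face `g` across a lattice edge that is not on `C`. -/
def Step {v : V} (C : hexLattice.Walk v v) (f g : ℤ × ℤ) : Prop :=
  ∃ x y, hexLattice.Adj x y ∧ s(x, y) ∉ C.edges ∧ x ∈ face f ∧ y ∈ face f ∧ x ∈ face g ∧ y ∈ face g

/-- The face `f` lies inside the cycle `C`: only finitely many faces can be reached from it
without crossing `C`. -/
def Inside {v : V} (C : hexLattice.Walk v v) (f : ℤ × ℤ) : Prop :=
  {g | Relation.ReflTransGen (Step C) f g}.Finite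

/-- The benzenoid system of a cycle `C`: the cycle together with all lattice vertices and edges
inside it. -/
def benzenoid {v : V} (C : hexLattice.Walk v v) : hexLattice.Subgraph where
  verts := {x | x ∈ C.support ∨ ∃ f, Inside C f ∧ x ∈ face f}
  Adj x y := hexLattice.Adj x y ∧ (s(x, y) ∈ C.edges ∨ ∃ f, Inside C f ∧ x ∈ face f ∧ y ∈ face f)
  adj_sub h := h.1
  edge_vert := by
    rintro x y ⟨_, h | ⟨f, hf, hx, _⟩⟩
    · exact Or.inl (C.fst_mem_support_of_mem_edges h)
    · exact Or.inr ⟨f, hf, hx⟩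
  symm := ⟨by
    rintro x y ⟨h, h' | ⟨f, hf, hx, hy⟩⟩
    · exact ⟨h.symm, Or.inl (by rwa [Sym2.eq_swap])⟩
    · exact ⟨h.symm, Or.inr ⟨f, hf, hy, hx⟩⟩⟩

/-- The Kekulé structures (perfect matchings) of the benzenoid system of `C`. -/
def Kekule {v : V} (C : hexLattice.Walk v v) : Set hexLattice.Subgraph :=
  {M | M ≤ benzenoid C ∧ M.IsMatching ∧ M.verts = (benzenoid C).verts}

/-- The Pauling bond order of an edge. -/
noncomputable def bondOrder {v : V} (C : hexLattice.Walk v v) (e : Sym2 V) : ℚ :=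
  ({M ∈ Kekule C | e ∈ M.edgeSet}.ncard : ℚ) / ((Kekule C).ncard : ℚ)

/-- The ring bond order of a hexagon. -/
noncomputable def ringBondOrder {v : V} (C : hexLattice.Walk v v) (h : ℤ × ℤ) : ℚ :=
  ∑ e ∈ hexEdges h, bondOrder C e

/-! ### Data -/

/-- The hexagons of the example. -/
def P : List (ℤ × ℤ) :=
  [(-3,0), (-3,1), (-3,3), (-2,0), (-2,2), (-2,3), (-1,-2), (-1,0), (-1,1),
  (0,-3), (0,-2), (0,-1), (0,0), (0,1), (0,2), (0,3), (1,-1), (1,0),
  (1,2), (2,-3), (2,-2), (2,0), (3,-3), (3,-1), (3,0)]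

/-- The vertices of the cycle. -/
def L : List V :=
  [(-4,-1,true), (-4,0,false), (-4,0,true), (-4,1,false), (-4,1,true), (-3,1,false),
  (-3,0,true), (-2,0,false), (-2,0,true), (-2,1,false), (-3,1,true), (-3,2,false),
  (-4,2,true), (-4,3,false), (-4,3,true), (-3,3,false), (-3,3,true), (-2,3,false),
  (-2,2,true), (-2,2,false), (-2,1,true), (-1,1,false), (-1,1,true), (-1,2,false),
  (-1,2,true), (-1,3,false), (-1,3,true), (0,3,false), (0,2,true), (1,2,false),
  (1,1,true), (1,1,false), (0,1,true), (0,1,false), (0,0,true), (1,0,false),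
  (1,0,true), (2,0,false), (2,0,true), (3,0,false), (3,-1,true), (3,-1,false),
  (3,-2,true), (3,-2,false), (2,-2,true), (2,-1,false), (1,-1,true), (1,-1,false),
  (1,-2,true), (2,-2,false), (2,-3,true), (3,-3,false), (3,-4,true), (3,-4,false),
  (2,-4,true), (2,-4,false), (1,-4,true), (1,-3,false), (1,-3,true), (1,-2,false),
  (0,-2,true), (0,-2,false), (0,-3,true), (0,-3,false), (0,-4,true), (0,-4,false),
  (-1,-4,true), (-1,-3,false), (-2,-3,true), (-2,-2,false), (-2,-2,true), (-1,-2,false),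
  (-1,-2,true), (-1,-1,false), (-2,-1,true), (-2,-1,false), (-3,-1,true), (-3,-1,false),
  (-4,-1,true)]

/-- A perfect matching of the example. -/
def PM : List (V × V) :=
  [((-4,0,false), (-4,0,true)), ((-4,1,false), (-4,1,true)), ((-4,3,false), (-4,3,true)),
  ((-3,-1,false), (-4,-1,true)), ((-3,0,false), (-3,-1,true)), ((-3,1,false), (-3,0,true)),
  ((-3,2,false), (-4,2,true)), ((-3,3,false), (-3,3,true)), ((-2,-2,false), (-2,-2,true)),
  ((-2,-1,false), (-2,-1,true)), ((-2,0,false), (-2,0,true)), ((-2,1,false), (-3,1,true)),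
  ((-2,2,false), (-3,2,true)), ((-2,3,false), (-2,2,true)), ((-1,-3,false), (-2,-3,true)),
  ((-1,-2,false), (-1,-3,true)), ((-1,-1,false), (-1,-2,true)), ((-1,0,false), (-1,0,true)),
  ((-1,1,false), (-2,1,true)), ((-1,2,false), (-1,1,true)), ((-1,3,false), (-1,3,true)),
  ((0,-4,false), (-1,-4,true)), ((0,-3,false), (0,-4,true)), ((0,-2,false), (0,-3,true)),
  ((0,-1,false), (-1,-1,true)), ((0,0,false), (0,-1,true)), ((0,1,false), (0,0,true)),
  ((0,2,false), (-1,2,true)), ((0,3,false), (0,2,true)), ((1,-3,false), (1,-3,true)),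
  ((1,-2,false), (0,-2,true)), ((1,-1,false), (1,-1,true)), ((1,0,false), (1,0,true)),
  ((1,1,false), (0,1,true)), ((1,2,false), (1,1,true)), ((2,-4,false), (1,-4,true)),
  ((2,-3,false), (2,-3,true)), ((2,-2,false), (1,-2,true)), ((2,-1,false), (2,-2,true)),
  ((2,0,false), (2,-1,true)), ((3,-4,false), (2,-4,true)), ((3,-3,false), (3,-4,true)),
  ((3,-2,false), (3,-2,true)), ((3,-1,false), (3,-1,true)), ((3,0,false), (2,0,true))]

/-- The six sectors around the central hexagon: in each pair `(X, Y)` all neighbours of the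
vertices of `X` are in `Y`. -/
def sectors : List (List V × List V) :=
  [([(-1,2,false), (-1,3,false), (0,1,false), (0,2,false), (0,3,false), (1,1,false), (1,2,false)],
    [(-1,1,true), (-1,2,true), (-1,3,true), (0,0,true), (0,1,true), (0,2,true), (1,1,true)]),
   ([(-4,2,true), (-4,3,true), (-3,1,true), (-3,2,true), (-3,3,true), (-2,1,true), (-2,2,true)],
    [(-4,3,false), (-3,2,false), (-3,3,false), (-2,1,false), (-2,2,false), (-2,3,false),
      (-1,1,false)]),
   ([(-4,0,false), (-4,1,false), (-3,-1,false), (-3,0,false), (-3,1,false), (-2,-1,false),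
      (-2,0,false)],
    [(-4,-1,true), (-4,0,true), (-4,1,true), (-3,-1,true), (-3,0,true), (-2,-1,true),
      (-2,0,true)]),
   ([(-2,-3,true), (-2,-2,true), (-1,-4,true), (-1,-3,true), (-1,-2,true), (0,-4,true),
      (0,-3,true)],
    [(-2,-2,false), (-1,-3,false), (-1,-2,false), (-1,-1,false), (0,-4,false), (0,-3,false),
      (0,-2,false)]),
   ([(1,-3,false), (1,-2,false), (2,-4,false), (2,-3,false), (2,-2,false), (3,-4,false),
      (3,-3,false)],
    [(0,-2,true), (1,-4,true), (1,-3,true), (1,-2,true), (2,-4,true), (2,-3,true), (3,-4,true)]),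
   ([(1,-1,true), (1,0,true), (2,-2,true), (2,-1,true), (2,0,true), (3,-2,true), (3,-1,true)],
    [(1,-1,false), (1,0,false), (2,-1,false), (2,0,false), (3,-2,false), (3,-1,false),
      (3,0,false)])]

/-! ### General facts about the lattice -/

instance : DecidableRel hexLattice.Adj := fun x y =>
  inferInstanceAs (Decidable (y ∈ nbrs x))

/-- The three faces around a vertex. -/
def facesOf (x : V) : List (ℤ × ℤ) :=
  if x.2.2 then [(x.1 + 1, x.2.1), (x.1 + 1, x.2.1 + 1), (x.1, x.2.1 + 1)]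
  else [(x.1, x.2.1), (x.1 + 1, x.2.1), (x.1, x.2.1 + 1)]

theorem mem_face {x : V} {f : ℤ × ℤ} : x ∈ face f ↔ ∃ i, corner f i = x := by
  simp [face]

theorem mem_facesOf {x : V} {f : ℤ × ℤ} : x ∈ face f ↔ f ∈ facesOf x := by
  obtain ⟨a, b, s⟩ := x
  obtain ⟨c, d⟩ := f
  rw [mem_face]
  cases s
  · simp only [facesOf, Fin.exists_fin_succ, corner]
    simp [Prod.ext_iff]
    omega
  · simp only [facesOf, Fin.exists_fin_succ, corner]
    simp [Prod.ext_iff]
    omega

/-- The six directions. -/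
def dir (i : Fin 6) : ℤ × ℤ :=
  match i with
  | 0 => (0, 1)
  | 1 => (-1, 1)
  | 2 => (-1, 0)
  | 3 => (0, -1)
  | 4 => (1, -1)
  | 5 => (1, 0)

/-- The face across the `i`-th edge of `f`. -/
theorem corner_mem_face (f : ℤ × ℤ) (i : Fin 6) :
    hexLattice.Adj (corner f i) (corner f (i + 1)) ∧
      corner f i ∈ face (f + dir i) ∧ corner f (i + 1) ∈ face (f + dir i) := by
  obtain ⟨a, b⟩ := f
  simp only [mem_facesOf]
  fin_cases i <;>
    simp [corner, dir, facesOf, hexLattice, nbrs, Prod.ext_iff] <;> omega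

theorem corner_mem (f : ℤ × ℤ) (i : Fin 6) : corner f i ∈ face f := by
  simp [face]

/-- The consecutive pairs of a list. -/
def pairsOf : List V → List (V × V)
  | [] => []
  | [_] => []
  | x :: y :: l => (x, y) :: pairsOf (y :: l)

theorem exists_walk : ∀ (l : List V) (u : V), List.IsChain hexLattice.Adj (u :: l) →
    ∃ p : hexLattice.Walk u ((u :: l).getLast (List.cons_ne_nil u l)),
      p.support = u :: l ∧ p.edges = (pairsOf (u :: l)).map fun q => s(q.1, q.2)
  | [], u, _ => ⟨SimpleGraph.Walk.nil, by simp [pairsOf]⟩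
  | w :: l, u, h => by
    rw [List.isChain_cons_cons] at h
    obtain ⟨p, hp, hp'⟩ := exists_walk l w h.2
    refine ⟨SimpleGraph.Walk.cons h.1 (p.copy rfl (by simp)), ?_, ?_⟩
    · simp [hp]
    · simp [hp', pairsOf]

theorem exists_cycle : ∃ C : hexLattice.Walk (-4,-1,true) (-4,-1,true),
    C.support = L ∧ C.edges = (pairsOf L).map (fun q => s(q.1, q.2)) := by
  have hchain : List.IsChain hexLattice.Adj ((-4,-1,true) :: L.tail) := by decide +kernel
  obtain ⟨p, hp, hp'⟩ := exists_walk L.tail (-4,-1,true) hchain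
  have hlast : ((-4,-1,true) :: L.tail).getLast (List.cons_ne_nil _ _) = (-4,-1,true) := by
    decide +kernel
  refine ⟨p.copy rfl hlast, ?_, ?_⟩
  · rw [SimpleGraph.Walk.support_copy, hp]; rfl
  · rw [SimpleGraph.Walk.edges_copy, hp']; rfl

/-! ### The finite checks -/

set_option synthInstance.maxSize 2000

/-- Every edge of the cycle separates a face of `P` from a face outside `P`. -/
theorem check_sep : ∀ q ∈ pairsOf L, ∀ f ∈ facesOf q.1, ∀ g ∈ facesOf q.1,
    f ∈ facesOf q.2 → g ∈ facesOf q.2 → f ≠ g → (f ∈ P ∨ g ∈ P) := by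
  decide +kernel

theorem check_closed : ∀ f ∈ P, ∀ i : Fin 6, ∀ y ∈ nbrs (corner f i), f ∈ facesOf y →
    ((corner f i, y) ∈ pairsOf L ∨ (y, corner f i) ∈ pairsOf L) ∨
      ∀ g ∈ facesOf (corner f i), g ∈ facesOf y → g ∈ P := by
  decide +kernel

theorem check_support : ∀ x ∈ L, ∃ f ∈ facesOf x, f ∈ P := by
  decide +kernel

theorem check_edges : ∀ q ∈ pairsOf L, ∃ f ∈ facesOf q.1, f ∈ facesOf q.2 ∧ f ∈ P := by
  decide +kernel

theorem check_ray : ∀ a ∈ Finset.Icc (-3 : ℤ) 3, ∀ b ∈ Finset.Icc (-3 : ℤ) 3, (a, b) ∉ P →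
    ∃ i : Fin 6, ∀ k < 7, (a + (k : ℕ) * (dir i).1, b + (k : ℕ) * (dir i).2) ∉ P := by
  decide +kernel

theorem check_box : ∀ f ∈ P, -3 ≤ f.1 ∧ f.1 ≤ 3 ∧ -3 ≤ f.2 ∧ f.2 ≤ 3 := by
  decide +kernel

theorem check_sectors : ∀ S ∈ sectors, S.2.length ≤ S.1.length ∧ S.1.Nodup ∧
    (∀ x ∈ S.1, ∃ f ∈ facesOf x, f ∈ P) ∧
    ∀ x ∈ S.1, ∀ y ∈ nbrs x, (∃ f ∈ facesOf x, f ∈ facesOf y ∧ f ∈ P) → y ∈ S.2 := by
  decide +kernel

theorem check_hex : ∀ i : Fin 6, ∀ y ∈ nbrs (corner (0, 0) i),
    y = corner (0, 0) (i + 1) ∨ y = corner (0, 0) (i - 1) ∨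
      ∃ S ∈ sectors, y ∈ S.2 ∧ corner (0, 0) i ∉ S.1 := by
  decide +kernel

theorem check_PM : ∀ q ∈ PM, q.2 ∈ nbrs q.1 ∧ ∃ f ∈ facesOf q.1, f ∈ facesOf q.2 ∧ f ∈ P := by
  decide +kernel

theorem check_PM' : ∀ f ∈ P, ∀ i : Fin 6, ∃ w ∈ nbrs (corner f i),
    ((corner f i, w) ∈ PM ∨ (w, corner f i) ∈ PM) ∧
    ∀ w' ∈ nbrs (corner f i), ((corner f i, w') ∈ PM ∨ (w', corner f i) ∈ PM) → w' = w := by
  decide +kernel

theorem check_cycle : L.tail.Nodup ∧
    (pairsOf L).Pairwise (fun p q => ¬ ((p.1 = q.1 ∧ p.2 = q.2) ∨ (p.1 = q.2 ∧ p.2 = q.1))) := by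
  decide +kernel

/-! ### The inside of the cycle -/

section

variable {v : V} {C : hexLattice.Walk v v}

theorem mem_edges_of (hE : C.edges = (pairsOf L).map (fun q => s(q.1, q.2))) {x y : V} :
    s(x, y) ∈ C.edges ↔ ((x, y) ∈ pairsOf L ∨ (y, x) ∈ pairsOf L) := by
  rw [hE, List.mem_map]
  constructor
  · rintro ⟨⟨a, b⟩, h, h'⟩
    simp only [Sym2.eq_iff] at h'
    rcases h' with ⟨rfl, rfl⟩ | ⟨rfl, rfl⟩
    · exact Or.inl h
    · exact Or.inr h
  · rintro (h | h)
    · exact ⟨_, h, rfl⟩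
    · exact ⟨_, h, Sym2.eq_swap⟩

theorem step_closed (hE : C.edges = (pairsOf L).map (fun q => s(q.1, q.2))) {f g : ℤ × ℤ}
    (hf : f ∈ P) (h : Step C f g) : g ∈ P := by
  obtain ⟨x, y, hxy, hC, hxf, hyf, hxg, hyg⟩ := h
  obtain ⟨i, rfl⟩ := mem_face.1 hxf
  have := check_closed f hf i y hxy (mem_facesOf.1 hyf)
  rcases this with h | h
  · exact absurd ((mem_edges_of hE).2 h) hC
  · exact h g (mem_facesOf.1 hxg) (mem_facesOf.1 hyg)

theorem inside_of_mem (hE : C.edges = (pairsOf L).map (fun q => s(q.1, q.2))) {f : ℤ × ℤ}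
    (hf : f ∈ P) : Inside C f := by
  apply Set.Finite.subset (P.toFinset.finite_toSet)
  intro g hg
  simp only [List.coe_toFinset, Set.mem_ofPred_eq]
  induction hg with
  | refl => exact hf
  | tail _ h ih => exact step_closed hE ih h

theorem step_of_not_mem (hE : C.edges = (pairsOf L).map (fun q => s(q.1, q.2))) {f : ℤ × ℤ}
    {i : Fin 6} (hf : f ∉ P) (hg : f + dir i ∉ P) : Step C f (f + dir i) := by
  obtain ⟨h1, h2, h3⟩ := corner_mem_face f i
  refine ⟨_, _, h1, ?_, corner_mem f i, corner_mem f (i + 1), h2, h3⟩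
  have hne : f ≠ f + dir i := by
    intro h
    have : dir i = 0 := by simpa using h.symm
    revert this
    fin_cases i <;> decide
  intro hC
  rcases (mem_edges_of hE).1 hC with h | h
  · rcases check_sep _ h f (mem_facesOf.1 (corner_mem f i)) _ (mem_facesOf.1 h2)
      (mem_facesOf.1 (corner_mem f (i + 1))) (mem_facesOf.1 h3) hne with h' | h'
    · exact hf h'
    · exact hg h'
  · rcases check_sep _ h f (mem_facesOf.1 (corner_mem f (i + 1))) _ (mem_facesOf.1 h3)
      (mem_facesOf.1 (corner_mem f i)) (mem_facesOf.1 h2) hne with h' | h'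
    · exact hf h'
    · exact hg h'

theorem exists_ray {f : ℤ × ℤ} (hf : f ∉ P) :
    ∃ i : Fin 6, ∀ k : ℕ, f + k • dir i ∉ P := by
  obtain ⟨a, b⟩ := f
  by_cases hbox : -3 ≤ a ∧ a ≤ 3 ∧ -3 ≤ b ∧ b ≤ 3
  · obtain ⟨i, hi⟩ := check_ray a (Finset.mem_Icc.2 ⟨hbox.1, hbox.2.1⟩) b
      (Finset.mem_Icc.2 ⟨hbox.2.2.1, hbox.2.2.2⟩) hf
    refine ⟨i, fun k hk => ?_⟩
    by_cases hk7 : k < 7
    · apply hi k hk7
      have : (a + (k : ℕ) * (dir i).1, b + (k : ℕ) * (dir i).2) = (a, b) + k • dir i := by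
        ext <;> simp
      rwa [this]
    · have h := check_box _ hk
      revert h
      fin_cases i <;> simp [dir] <;> omega
  · by_cases h1 : 3 < a
    · refine ⟨5, fun k hk => ?_⟩
      have h := check_box _ hk
      revert h
      simp [dir]
      omega
    by_cases h2 : a < -3
    · refine ⟨2, fun k hk => ?_⟩
      have h := check_box _ hk
      revert h
      simp [dir]
      omega
    by_cases h3 : 3 < b
    · refine ⟨0, fun k hk => ?_⟩
      have h := check_box _ hk
      revert h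
      simp [dir]
      omega
    · refine ⟨3, fun k hk => ?_⟩
      have h := check_box _ hk
      revert h
      simp [dir]
      omega

theorem not_inside (hE : C.edges = (pairsOf L).map (fun q => s(q.1, q.2))) {f : ℤ × ℤ}
    (hf : f ∉ P) : ¬ Inside C f := by
  obtain ⟨i, hi⟩ := exists_ray hf
  have hreach : ∀ k : ℕ, Relation.ReflTransGen (Step C) f (f + k • dir i) := by
    intro k
    induction k with
    | zero => simpa using Relation.ReflTransGen.refl
    | succ k ih =>
      refine ih.tail ?_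
      have : f + (k + 1) • dir i = f + k • dir i + dir i := by rw [succ_nsmul, add_assoc]
      rw [this]
      exact step_of_not_mem hE (hi k) (by rw [← this]; exact hi (k + 1))
  have hinj : Function.Injective (fun k : ℕ => f + k • dir i) := by
    intro k l hkl
    simp only [add_right_inj] at hkl
    revert hkl
    fin_cases i <;> simp [dir, Prod.ext_iff]
  exact Set.infinite_of_injective_forall_mem hinj hreach

theorem inside_iff (hE : C.edges = (pairsOf L).map (fun q => s(q.1, q.2))) {f : ℤ × ℤ} :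
    Inside C f ↔ f ∈ P :=
  ⟨fun h => by_contra fun h' => not_inside hE h' h, inside_of_mem hE⟩

theorem mem_verts (hS : C.support = L) (hE : C.edges = (pairsOf L).map (fun q => s(q.1, q.2)))
    {x : V} : x ∈ (benzenoid C).verts ↔ ∃ f ∈ facesOf x, f ∈ P := by
  show (x ∈ C.support ∨ ∃ f, Inside C f ∧ x ∈ face f) ↔ _
  constructor
  · rintro (h | ⟨f, hf, hx⟩)
    · rw [hS] at h; exact check_support x h
    · exact ⟨f, mem_facesOf.1 hx, (inside_iff hE).1 hf⟩
  · rintro ⟨f, hf, hP⟩
    exact Or.inr ⟨f, (inside_iff hE).2 hP, mem_facesOf.2 hf⟩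

theorem benz_adj (hE : C.edges = (pairsOf L).map (fun q => s(q.1, q.2))) {x y : V} :
    (benzenoid C).Adj x y ↔ y ∈ nbrs x ∧ ∃ f ∈ facesOf x, f ∈ facesOf y ∧ f ∈ P := by
  show (y ∈ nbrs x ∧ (s(x, y) ∈ C.edges ∨ ∃ f, Inside C f ∧ x ∈ face f ∧ y ∈ face f)) ↔ _
  constructor
  · rintro ⟨h, h' | ⟨f, hf, hx, hy⟩⟩
    · refine ⟨h, ?_⟩
      rcases (mem_edges_of hE).1 h' with h' | h'
      · exact check_edges _ h'
      · obtain ⟨f, h1, h2, h3⟩ := check_edges _ h'
        exact ⟨f, h2, h1, h3⟩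
    · exact ⟨h, f, mem_facesOf.1 hx, mem_facesOf.1 hy, (inside_iff hE).1 hf⟩
  · rintro ⟨h, f, hx, hy, hP⟩
    exact ⟨h, Or.inr ⟨f, (inside_iff hE).2 hP, mem_facesOf.2 hx, mem_facesOf.2 hy⟩⟩

/-! ### Perfect matchings -/

/-- If all neighbours (in the benzenoid) of the vertices of `X` lie in `Y` and `|Y| ≤ |X|`, then
every perfect matching matches the vertices of `Y` into `X`. -/
theorem sector_closed (M : hexLattice.Subgraph) (hM : M ∈ Kekule C) (X Y : List V)
    (hX : ∀ x ∈ X, x ∈ (benzenoid C).verts)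
    (hXY : ∀ x ∈ X, ∀ y, (benzenoid C).Adj x y → y ∈ Y) (hn : X.Nodup)
    (hc : Y.length ≤ X.length) {y z : V} (hy : y ∈ Y) (hyz : M.Adj y z) : z ∈ X := by
  classical
  obtain ⟨hle, hmat, hv⟩ := hM
  have hex : ∀ x : V, ∃ y, x ∈ X → M.Adj x y := by
    intro x
    by_cases h : x ∈ X
    · obtain ⟨y, hy, _⟩ := hmat (by rw [hv]; exact hX x h : x ∈ M.verts)
      exact ⟨y, fun _ => hy⟩
    · exact ⟨x, fun h' => absurd h' h⟩
  choose p hp using hex
  have huniq : ∀ a b c : V, M.Adj a b → M.Adj a c → b = c := by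
    intro a b c hb hc
    obtain ⟨w, _, hw⟩ := hmat (M.edge_vert hb)
    rw [hw b hb, hw c hc]
  have hinj : Set.InjOn p (X.toFinset : Set V) := by
    intro a ha b hb hab
    have ha' : a ∈ X := by simpa using ha
    have hb' : b ∈ X := by simpa using hb
    refine huniq (p a) a b (hp a ha').symm ?_
    rw [hab]
    exact (hp b hb').symm
  have hsub : X.toFinset.image p ⊆ Y.toFinset := by
    intro w hw
    rw [Finset.mem_image] at hw
    obtain ⟨x, hx, rfl⟩ := hw
    rw [List.mem_toFinset] at hx ⊢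
    exact hXY x hx _ (hle.2 (hp x hx))
  have hcard : (X.toFinset.image p).card = X.length := by
    rw [Finset.card_image_of_injOn hinj, List.toFinset_card_of_nodup hn]
  have heq : X.toFinset.image p = Y.toFinset := by
    apply Finset.eq_of_subset_of_card_le hsub
    rw [hcard]
    exact (List.toFinset_card_le Y).trans hc
  have : y ∈ X.toFinset.image p := by rw [heq]; simpa using hy
  rw [Finset.mem_image] at this
  obtain ⟨x, hx, rfl⟩ := this
  rw [List.mem_toFinset] at hx
  rw [← huniq (p x) x z (hp x hx).symm hyz]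
  exact hx

theorem hex_partner (hS : C.support = L)
    (hE : C.edges = (pairsOf L).map (fun q => s(q.1, q.2)))
    (M : hexLattice.Subgraph) (hM : M ∈ Kekule C) (i : Fin 6) {y : V}
    (h : M.Adj (corner (0, 0) i) y) :
    y = corner (0, 0) (i + 1) ∨ y = corner (0, 0) (i - 1) := by
  have hB := (benz_adj hE).1 (hM.1.2 h)
  rcases check_hex i y hB.1 with h' | h' | ⟨S, hSm, hyS, hi⟩
  · exact Or.inl h'
  · exact Or.inr h'
  · exfalso
    obtain ⟨h1, h2, h3, h4⟩ := check_sectors S hSm
    exact hi (sector_closed M hM S.1 S.2 (fun x hx => (mem_verts hS hE).2 (h3 x hx))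
      (fun x hx y hy => h4 x hx y ((benz_adj hE).1 hy).1 ((benz_adj hE).1 hy).2) h2 h1 hyS h.symm)

theorem corner_ne {i j : Fin 6} (h : i ≠ j) : corner (0, 0) i ≠ corner (0, 0) j := by
  revert i j; decide

theorem fin6_ne : ∀ i : Fin 6, i ≠ i + 2 := by decide

theorem fin6_a : ∀ i : Fin 6, i + 1 + 1 = i + 2 := by decide

theorem fin6_b : ∀ i : Fin 6, i + 1 - 1 = i := by decide

theorem fin6_c : ∀ a : Fin 6 → Bool, (∀ i, a i = !(a (i + 1))) →
    (Finset.univ.filter fun i => a i = true).card = 3 := by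
  decide +kernel

theorem edge_inj : ∀ i j : Fin 6, s(corner (0, 0) i, corner (0, 0) (i + 1)) =
    s(corner (0, 0) j, corner (0, 0) (j + 1)) → i = j := by
  decide +kernel

theorem hex_three (hS : C.support = L)
    (hE : C.edges = (pairsOf L).map (fun q => s(q.1, q.2)))
    (M : hexLattice.Subgraph) (hM : M ∈ Kekule C) :
    (M.edgeSet ∩ (hexEdges (0, 0) : Set (Sym2 V))).ncard = 3 := by
  classical
  have hex : ∀ i : Fin 6, ∃ y, M.Adj (corner (0, 0) i) y := by
    intro i
    have : corner (0, 0) i ∈ M.verts := by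
      rw [hM.2.2]
      exact (mem_verts hS hE).2 ⟨(0, 0), mem_facesOf.1 (corner_mem _ _), by decide⟩
    obtain ⟨y, hy, _⟩ := hM.2.1 this
    exact ⟨y, hy⟩
  have huniq : ∀ a b c : V, M.Adj a b → M.Adj a c → b = c := by
    intro a b c hb hc
    obtain ⟨w, _, hw⟩ := hM.2.1 (M.edge_vert hb)
    rw [hw b hb, hw c hc]
  have key : ∀ i : Fin 6, (M.Adj (corner (0, 0) i) (corner (0, 0) (i + 1)) ↔
      ¬ M.Adj (corner (0, 0) (i + 1)) (corner (0, 0) (i + 1 + 1))) := by
    intro i
    rw [fin6_a]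
    constructor
    · intro h h'
      have := huniq _ _ _ h.symm h'
      exact corner_ne (fin6_ne i) this
    · intro h
      obtain ⟨y, hy⟩ := hex (i + 1)
      rcases hex_partner hS hE M hM (i + 1) hy with h' | h'
      · rw [h', fin6_a] at hy
        exact absurd hy h
      · rw [h', fin6_b] at hy
        exact hy.symm
  have hcard := fin6_c
    (fun i => decide (M.Adj (corner (0, 0) i) (corner (0, 0) (i + 1)))) (by
      intro i
      have := key i
      by_cases h : M.Adj (corner (0, 0) i) (corner (0, 0) (i + 1))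
      · have h2 := this.1 h
        simp [h, h2]
      · have h2 : M.Adj (corner (0, 0) (i + 1)) (corner (0, 0) (i + 1 + 1)) := by
          by_contra h3; exact h (this.2 h3)
        simp [h, h2])
  have hset : M.edgeSet ∩ (hexEdges (0, 0) : Set (Sym2 V)) =
      (((Finset.univ.filter fun i : Fin 6 =>
        decide (M.Adj (corner (0, 0) i) (corner (0, 0) (i + 1))) = true).image
        fun i : Fin 6 => s(corner (0, 0) i, corner (0, 0) (i + 1)) : Finset (Sym2 V)) :
          Set (Sym2 V)) := by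
    ext e
    simp only [hexEdges, Set.mem_inter_iff, Finset.mem_coe, Finset.mem_image, Finset.mem_univ,
      true_and, Finset.mem_filter, decide_eq_true_eq]
    constructor
    · rintro ⟨he, i, rfl⟩
      exact ⟨i, he, rfl⟩
    · rintro ⟨i, he, rfl⟩
      exact ⟨he, i, rfl⟩
  rw [hset, Set.ncard_coe_finset, Finset.card_image_of_injective _ (fun i j h => edge_inj i j h)]
  exact hcard

theorem kekule_finite (hS : C.support = L)
    (hE : C.edges = (pairsOf L).map (fun q => s(q.1, q.2))) : (Kekule C).Finite := by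
  have hv : (benzenoid C).verts.Finite := by
    apply Set.Finite.subset ((P.toFinset.biUnion face).finite_toSet)
    intro x hx
    obtain ⟨f, hf, hP⟩ := (mem_verts hS hE).1 hx
    simp only [Finset.mem_coe, Finset.mem_biUnion, List.mem_toFinset]
    exact ⟨f, hP, mem_facesOf.2 hf⟩
  have he : (benzenoid C).edgeSet.Finite := by
    apply Set.Finite.subset ((hv.prod hv).image (fun q : V × V => s(q.1, q.2)))
    intro e
    induction e with
    | h x y =>
      intro h
      rw [SimpleGraph.Subgraph.mem_edgeSet] at h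
      exact ⟨(x, y), ⟨(benzenoid C).edge_vert h, (benzenoid C).edge_vert h.symm⟩, rfl⟩
  apply Set.Finite.of_finite_image (f := fun M : hexLattice.Subgraph => M.edgeSet)
  · apply Set.Finite.subset he.finite_subsets
    rintro _ ⟨M, hM, rfl⟩
    exact SimpleGraph.Subgraph.edgeSet_mono hM.1
  · intro M hM M' hM' h
    simp only at h
    ext x y
    · rw [hM.2.2, hM'.2.2]
    · rw [← SimpleGraph.Subgraph.mem_edgeSet, h, SimpleGraph.Subgraph.mem_edgeSet]

theorem kekule_nonempty (hS : C.support = L)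
    (hE : C.edges = (pairsOf L).map (fun q => s(q.1, q.2))) : (Kekule C).Nonempty := by
  have hsub : ∀ x y, ((x, y) ∈ PM ∨ (y, x) ∈ PM) → (benzenoid C).Adj x y := by
    rintro x y (h | h)
    · exact (benz_adj hE).2 (check_PM _ h)
    · exact ((benz_adj hE).2 (check_PM _ h)).symm
  let M : hexLattice.Subgraph :=
    { verts := (benzenoid C).verts
      Adj := fun x y => (x, y) ∈ PM ∨ (y, x) ∈ PM
      adj_sub := fun {x y} h => (benzenoid C).adj_sub (hsub x y h)
      edge_vert := fun {x y} h => (benzenoid C).edge_vert (hsub x y h)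
      symm := ⟨fun x y h => h.symm⟩ }
  refine ⟨M, ⟨le_rfl, fun x y h => hsub x y h⟩, ?_, rfl⟩
  intro x hx
  obtain ⟨f, hf, hP⟩ := (mem_verts hS hE).1 hx
  obtain ⟨i, rfl⟩ := mem_face.1 (mem_facesOf.2 hf)
  obtain ⟨w, _, hw, hw'⟩ := check_PM' f hP i
  refine ⟨w, hw, fun y hy => ?_⟩
  exact hw' y ((benz_adj hE).1 (hsub _ _ hy)).1 hy

theorem ring_three (hS : C.support = L)
    (hE : C.edges = (pairsOf L).map (fun q => s(q.1, q.2))) : ringBondOrder C (0, 0) = 3 := by
  classical
  have hfin := kekule_finite hS hE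
  have hne := kekule_nonempty hS hE
  have hK : ((Kekule C).ncard : ℚ) ≠ 0 := by
    rw [Nat.cast_ne_zero]
    exact (Set.ncard_pos hfin).2 hne |>.ne'
  set K := hfin.toFinset with hKdef
  have h1 : (Kekule C).ncard = K.card := Set.ncard_eq_toFinset_card _ hfin
  have h2 : ∀ e, {M ∈ Kekule C | e ∈ M.edgeSet}.ncard = (K.filter fun M => e ∈ M.edgeSet).card := by
    intro e
    rw [← Set.ncard_coe_finset]
    congr 1
    ext M
    simp [hKdef]
  have h3 : ∑ e ∈ hexEdges (0, 0), (K.filter fun M => e ∈ M.edgeSet).card = 3 * K.card := by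
    have : ∀ M ∈ K, ((hexEdges (0, 0)).filter fun e => e ∈ M.edgeSet).card = 3 := by
      intro M hM
      have hM' : M ∈ Kekule C := by simpa [hKdef] using hM
      rw [← hex_three hS hE M hM', ← Set.ncard_coe_finset]
      congr 1
      ext e
      simp [and_comm]
    have h4 := Finset.sum_card_bipartiteAbove_eq_sum_card_bipartiteBelow
      (s := hexEdges (0, 0)) (t := K)
      (fun (e : Sym2 V) (M : hexLattice.Subgraph) => e ∈ M.edgeSet)
    simp only [Finset.bipartiteAbove, Finset.bipartiteBelow] at h4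
    rw [h4, Finset.sum_congr rfl this]
    simp [mul_comm]
  unfold ringBondOrder bondOrder
  rw [← Finset.sum_div]
  simp only [h2]
  rw [← Nat.cast_sum, h3, h1]
  rw [h1] at hK
  push_cast
  field_simp

end

/-- There is a cycle `C` of the hexagonal lattice whose benzenoid system has 25 hexagons, has a
perfect matching, and has a hexagon with ring bond order 3, of which every perfect matching
contains exactly three edges. -/
theorem result : ∃ (v : V) (C : hexLattice.Walk v v), C.IsCycle ∧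
    {f | Inside C f}.ncard = 25 ∧ (Kekule C).Finite ∧ (Kekule C).Nonempty ∧
    ∃ h : ℤ × ℤ, Inside C h ∧ ringBondOrder C h = 3 ∧
      ∀ M ∈ Kekule C, (M.edgeSet ∩ (hexEdges h : Set (Sym2 V))).ncard = 3 := by
  obtain ⟨C, hS, hE⟩ := exists_cycle
  refine ⟨_, C, ?_, ?_, kekule_finite hS hE, kekule_nonempty hS hE, (0, 0),
    (inside_iff hE).2 (by decide), ring_three hS hE, hex_three hS hE⟩
  · rw [SimpleGraph.Walk.isCycle_def]
    refine ⟨?_, ?_, ?_⟩
    · rw [SimpleGraph.Walk.isTrail_def, hE, List.Nodup, List.pairwise_map]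
      refine check_cycle.2.imp ?_
      rintro ⟨a, b⟩ ⟨c, d⟩ h h'
      apply h
      simpa [Sym2.eq_iff] using h'
    · intro h
      rw [h] at hS
      exact absurd (congrArg List.length hS) (by decide)
    · rw [hS]
      exact check_cycle.1
  · have : {f | Inside C f} = ((P.toFinset : Finset (ℤ × ℤ)) : Set (ℤ × ℤ)) := by
      ext f
      simp [inside_iff hE]
    rw [this, Set.ncard_coe_finset]
    decide +kernel

end Pool.Agent.Results.MP_64a46a_co.RingBondOrderThree
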